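import Mathlib

/-!
Visual hull of `n` strictly separated bodies in `ℝ^n`: exactly `n` components when the bodies are
all closed or all open.
-/

namespace Pool.Agent.Results.MP_1d6f1e_gt.ClosedOrOpen

open Set Topology Module

/-- The visual hull of `S`: the set of points `x` such that every line through `x` meets `S`. -/
def visualHull {n : ℕ} (S : Set (EuclideanSpace ℝ (Fin n))) :
    Set (EuclideanSpace ℝ (Fin n)) :=
  {x | ∀ v : EuclideanSpace ℝ (Fin n), v ≠ 0 → ∃ t : ℝ, x + t • v ∈ S}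

/-- A body: a bounded convex set with nonempty interior. -/
def IsBody {n : ℕ} (S : Set (EuclideanSpace ℝ (Fin n))) : Prop :=
  Bornology.IsBounded S ∧ Convex ℝ S ∧ (interior S).Nonempty

/-- `A` and `B` lie in the two different open half-spaces bounded by some affine hyperplane. -/
def StrictlySeparated {n : ℕ} (A B : Set (EuclideanSpace ℝ (Fin n))) : Prop :=
  ∃ (f : EuclideanSpace ℝ (Fin n) →L[ℝ] ℝ) (c : ℝ), f ≠ 0 ∧
    (∀ x ∈ A, f x < c) ∧ (∀ x ∈ B, c < f x)

variable {n : ℕ}

/-- `n - 1` functionals on an `n`-dimensional space have a common nonzero zero. -/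
lemma exists_common_zero (i0 : Fin n)
    (f : Fin n → (EuclideanSpace ℝ (Fin n) →L[ℝ] ℝ)) :
    ∃ d : EuclideanSpace ℝ (Fin n), d ≠ 0 ∧ ∀ j, j ≠ i0 → f j d = 0 := by
  classical
  let L : EuclideanSpace ℝ (Fin n) →ₗ[ℝ] ({j : Fin n // j ≠ i0} → ℝ) :=
    LinearMap.pi fun j => (f j.1 : EuclideanSpace ℝ (Fin n) →ₗ[ℝ] ℝ)
  have hlt : finrank ℝ ({j : Fin n // j ≠ i0} → ℝ) <
      finrank ℝ (EuclideanSpace ℝ (Fin n)) := by
    rw [Module.finrank_fintype_fun_eq_card, finrank_euclideanSpace, Fintype.card_fin,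
      Fintype.card_subtype_compl, Fintype.card_fin]
    have : Fintype.card {x : Fin n // x = i0} = 1 := Fintype.card_subtype_eq i0
    rw [this]
    have := i0.pos
    omega
  have hker : LinearMap.ker L ≠ ⊥ := LinearMap.ker_ne_bot_of_finrank_lt hlt
  obtain ⟨d, hd, hd0⟩ := (Submodule.ne_bot_iff _).1 hker
  refine ⟨d, hd0, fun j hj => ?_⟩
  have := congrFun (LinearMap.mem_ker.1 hd) ⟨j, hj⟩
  simpa [L] using this

/-- The set of tuples `(lam i • a i)` with `lam` in the simplex and `a i ∈ A i`. -/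
lemma tuples_compact (A : Fin n → Set (EuclideanSpace ℝ (Fin n)))
    (hA : ∀ i, IsCompact (A i)) :
    IsCompact ((fun p : (Fin n → ℝ) × (Fin n → EuclideanSpace ℝ (Fin n)) =>
      (fun i => p.1 i • p.2 i : Fin n → EuclideanSpace ℝ (Fin n))) ''
        ((stdSimplex ℝ (Fin n)) ×ˢ (Set.pi univ A))) := by
  apply IsCompact.image
  · exact (isCompact_stdSimplex ℝ (Fin n)).prod (isCompact_univ_pi hA)
  · fun_prop

lemma tuples_convex (A : Fin n → Set (EuclideanSpace ℝ (Fin n)))
    (hA : ∀ i, Convex ℝ (A i)) :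
    Convex ℝ ((fun p : (Fin n → ℝ) × (Fin n → EuclideanSpace ℝ (Fin n)) =>
      (fun i => p.1 i • p.2 i : Fin n → EuclideanSpace ℝ (Fin n))) ''
        ((stdSimplex ℝ (Fin n)) ×ˢ (Set.pi univ A))) := by
  rintro _ ⟨⟨l, a⟩, ⟨hl, ha⟩, rfl⟩ _ ⟨⟨m, b⟩, ⟨hm, hb⟩, rfl⟩ s t hs ht hst
  simp only [Set.mem_pi, Set.mem_univ, true_implies] at ha hb
  have hl0 : ∀ i, 0 ≤ l i := hl.1
  have hm0 : ∀ i, 0 ≤ m i := hm.1
  have key : ∀ i, ∃ c ∈ A i, (s * l i + t * m i) • c = s • (l i • a i) + t • (m i • b i) := by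
    intro i
    by_cases h : s * l i + t * m i = 0
    · have h1 : s * l i = 0 := by nlinarith [mul_nonneg hs (hl0 i), mul_nonneg ht (hm0 i)]
      have h2 : t * m i = 0 := by nlinarith [mul_nonneg hs (hl0 i), mul_nonneg ht (hm0 i)]
      exact ⟨a i, ha i, by rw [h, smul_smul, smul_smul, h1, h2]; simp⟩
    · have hpos : 0 < s * l i + t * m i :=
        lt_of_le_of_ne (add_nonneg (mul_nonneg hs (hl0 i)) (mul_nonneg ht (hm0 i))) (Ne.symm h)
      refine ⟨(s * l i / (s * l i + t * m i)) • a i + (t * m i / (s * l i + t * m i)) • b i,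
        hA i (ha i) (hb i) (div_nonneg (mul_nonneg hs (hl0 i)) hpos.le)
          (div_nonneg (mul_nonneg ht (hm0 i)) hpos.le) (by field_simp), ?_⟩
      rw [smul_add, smul_smul, smul_smul, smul_smul, smul_smul, mul_div_cancel₀ _ h,
        mul_div_cancel₀ _ h]
  choose c hc hc' using key
  refine ⟨⟨s • l + t • m, c⟩, ⟨?_, ?_⟩, ?_⟩
  · exact (convex_stdSimplex ℝ (Fin n)) hl hm hs ht hst
  · simpa [Set.mem_pi] using hc
  · funext i
    simpa using hc' i

/-- If compact convex nonempty sets `A i` (as many as the dimension), none containing the origin,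
block all lines through the origin, then some ray from the origin meets all of them. -/
lemma exists_common_ray (hn : 1 ≤ n) (A : Fin n → Set (EuclideanSpace ℝ (Fin n)))
    (hc : ∀ i, IsCompact (A i)) (hconv : ∀ i, Convex ℝ (A i)) (hne : ∀ i, (A i).Nonempty)
    (h0 : ∀ i, (0 : EuclideanSpace ℝ (Fin n)) ∉ A i)
    (hline : ∀ v : EuclideanSpace ℝ (Fin n), v ≠ 0 → ∃ t : ℝ, ∃ i, t • v ∈ A i) :
    ∃ m : EuclideanSpace ℝ (Fin n), ∀ i, ∃ t : ℝ, 0 < t ∧ t • m ∈ A i := by
  classical
  by_contra hcon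
  set C := ((fun p : (Fin n → ℝ) × (Fin n → EuclideanSpace ℝ (Fin n)) =>
      (fun i => p.1 i • p.2 i : Fin n → EuclideanSpace ℝ (Fin n))) ''
        ((stdSimplex ℝ (Fin n)) ×ˢ (Set.pi univ A))) with hC
  -- the diagonal
  let D : Submodule ℝ (Fin n → EuclideanSpace ℝ (Fin n)) :=
    LinearMap.range (LinearMap.pi (fun _ : Fin n =>
      (LinearMap.id : EuclideanSpace ℝ (Fin n) →ₗ[ℝ] EuclideanSpace ℝ (Fin n))))
  have hdisj : Disjoint C (D : Set (Fin n → EuclideanSpace ℝ (Fin n))) := by
    rw [Set.disjoint_left]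
    rintro _ ⟨⟨l, a⟩, ⟨hl, ha⟩, rfl⟩ ⟨v, hv⟩
    simp only [Set.mem_pi, Set.mem_univ, true_implies] at ha
    have hv' : ∀ i, l i • a i = v := fun i => by
      have := congrFun hv i
      simpa using this.symm
    by_cases hv0 : v = 0
    · -- then all `l i = 0`
      have hl0 : ∀ i, l i = 0 := fun i => by
        have h1 := hv' i
        rw [hv0, smul_eq_zero] at h1
        rcases h1 with h1 | h1
        · exact h1
        · exact absurd (h1 ▸ ha i) (h0 i)
      have := hl.2
      simp [hl0] at this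
    · apply hcon
      refine ⟨v, fun i => ?_⟩
      have hli : l i ≠ 0 := by
        intro h
        apply hv0
        rw [← hv' i, h, zero_smul]
      have hlpos : 0 < l i := lt_of_le_of_ne (hl.1 i) (Ne.symm hli)
      refine ⟨(l i)⁻¹, inv_pos.2 hlpos, ?_⟩
      rw [← hv' i, smul_smul, inv_mul_cancel₀ hli, one_smul]
      exact ha i
  obtain ⟨F, u, w, hFC, huw, hFD⟩ := geometric_hahn_banach_compact_closed
    (tuples_convex A hconv) (tuples_compact A hc) D.convex (D.closed_of_finiteDimensional) hdisj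
  -- `F` vanishes on the diagonal
  have hFD0 : ∀ y ∈ D, F y = 0 := by
    intro y hy
    by_contra hne0
    have h1 := hFD (((w - 1) / F y) • y) (D.smul_mem _ hy)
    rw [map_smul, smul_eq_mul, div_mul_cancel₀ _ hne0] at h1
    linarith
  have hw : w < 0 := by
    have := hFD 0 D.zero_mem
    simpa using this
  -- the component functionals
  let f : Fin n → (EuclideanSpace ℝ (Fin n) →L[ℝ] ℝ) := fun i =>
    F.comp (ContinuousLinearMap.single ℝ (fun _ : Fin n => EuclideanSpace ℝ (Fin n)) i)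
  have hfA : ∀ i, ∀ a ∈ A i, f i a < 0 := by
    intro i a ha
    have hmem : (Pi.single i a : Fin n → EuclideanSpace ℝ (Fin n)) ∈ C := by
      choose b hb using hne
      refine ⟨⟨Pi.single i 1, Function.update b i a⟩, ⟨?_, ?_⟩, ?_⟩
      · exact single_mem_stdSimplex ℝ i
      · simp only [Set.mem_pi, Set.mem_univ, true_implies]
        intro j
        by_cases hj : j = i
        · subst hj; simpa using ha
        · simpa [Function.update_of_ne hj] using hb j
      · funext j
        by_cases hj : j = i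
        · subst hj; simp
        · simp [Pi.single_eq_of_ne hj]
    have := hFC _ hmem
    have h2 : f i a = F (Pi.single i a) := rfl
    rw [h2]; linarith
  have hsum : ∀ v, ∑ i, f i v = 0 := by
    intro v
    have h1 : (fun _ : Fin n => v) ∈ D := ⟨v, by funext i; simp⟩
    have h2 := hFD0 _ h1
    have h3 : (fun _ : Fin n => v) = ∑ i, (Pi.single i v : Fin n → EuclideanSpace ℝ (Fin n)) := by
      funext j
      simp [Finset.sum_apply, Pi.single_apply]
    rw [h3, map_sum] at h2
    exact h2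
  obtain ⟨d, hd0, hd⟩ := exists_common_zero (⟨0, hn⟩ : Fin n) f
  have hd' : ∀ i, f i d = 0 := by
    intro i
    by_cases hi : i = ⟨0, hn⟩
    · subst hi
      have h1 := hsum d
      rw [Finset.sum_eq_single (⟨0, hn⟩ : Fin n)] at h1
      · exact h1
      · intro j _ hj; exact hd j hj
      · simp
    · exact hd i hi
  obtain ⟨t, i, hti⟩ := hline d hd0
  have := hfA i _ hti
  rw [map_smul, hd' i] at this
  simp at this

/-- Version of `exists_common_ray` based at a point `x`. -/
lemma exists_common_ray' (hn : 1 ≤ n) (x : EuclideanSpace ℝ (Fin n))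
    (A : Fin n → Set (EuclideanSpace ℝ (Fin n)))
    (hc : ∀ i, IsCompact (A i)) (hconv : ∀ i, Convex ℝ (A i)) (hne : ∀ i, (A i).Nonempty)
    (h0 : ∀ i, x ∉ A i)
    (hline : ∀ v : EuclideanSpace ℝ (Fin n), v ≠ 0 → ∃ t : ℝ, ∃ i, x + t • v ∈ A i) :
    ∃ m : EuclideanSpace ℝ (Fin n), ∀ i, ∃ t : ℝ, 0 < t ∧ x + t • m ∈ A i := by
  obtain ⟨m, hm⟩ := exists_common_ray hn (fun i => (fun y => x + y) ⁻¹' (A i))
    (fun i => by
      have : (fun y => x + y) ⁻¹' (A i) = (fun y => -x + y) '' (A i) := by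
        ext y; constructor
        · intro hy; exact ⟨x + y, hy, by simp⟩
        · rintro ⟨z, hz, rfl⟩; simpa using hz
      rw [this]; exact (hc i).image (by fun_prop))
    (fun i => (hconv i).translate_preimage_right x)
    (fun i => by
      obtain ⟨z, hz⟩ := hne i
      exact ⟨z - x, by simpa using hz⟩)
    (fun i => by simpa using h0 i)
    (fun v hv => hline v hv)
  exact ⟨m, hm⟩

/-- Moving along a ray that meets all the bodies stays in the visual hull until the first body. -/
lemma segment_subset_hull (hn : 1 ≤ n) (S : Fin n → Set (EuclideanSpace ℝ (Fin n)))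
    (hconv : ∀ i, Convex ℝ (S i)) (x m : EuclideanSpace ℝ (Fin n))
    (hx : x ∈ visualHull (⋃ i, S i)) (hm : ∀ i, ∃ t : ℝ, 0 < t ∧ x + t • m ∈ S i) :
    ∃ i, ∃ z ∈ S i, segment ℝ x z ⊆ visualHull (⋃ i, S i) := by
  classical
  choose t ht htm using hm
  have : Nonempty (Fin n) := ⟨⟨0, hn⟩⟩
  obtain ⟨i0, hi0⟩ := Finite.exists_min t
  refine ⟨i0, x + t i0 • m, htm i0, ?_⟩
  rintro _ ⟨a, b, ha, hb, hab, rfl⟩
  have hy : a • x + b • (x + t i0 • m) = x + (b * t i0) • m := by
    rw [smul_add, smul_smul, ← add_assoc, ← add_smul, hab, one_smul]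
  rw [hy]
  intro v hv
  obtain ⟨r, hr⟩ := hx v hv
  rw [Set.mem_iUnion] at hr
  obtain ⟨k, hk⟩ := hr
  have htk := ht k
  have hb1 : b ≤ 1 := by linarith
  have hle : b * t i0 ≤ t k := by
    calc b * t i0 ≤ 1 * t i0 := mul_le_mul_of_nonneg_right hb1 (ht i0).le
      _ = t i0 := one_mul _
      _ ≤ t k := hi0 k
  have hnn : 0 ≤ b * t i0 := mul_nonneg hb (ht i0).le
  refine ⟨(1 - b * t i0 / t k) * r, Set.mem_iUnion.2 ⟨k, ?_⟩⟩
  have h1 : 0 ≤ 1 - b * t i0 / t k := by
    rw [sub_nonneg, div_le_one htk]; exact hle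
  have h2 : 0 ≤ b * t i0 / t k := div_nonneg hnn htk.le
  have h3 := hconv k hk (htm k) h1 h2 (by ring)
  have h4 : (1 - b * t i0 / t k) • (x + r • v) + (b * t i0 / t k) • (x + t k • m)
      = x + (b * t i0) • m + ((1 - b * t i0 / t k) * r) • v := by
    have h5 : b * t i0 / t k * t k = b * t i0 := div_mul_cancel₀ _ htk.ne'
    rw [smul_add, smul_add, smul_smul, smul_smul, h5, sub_smul, one_smul]
    abel
  rw [h4] at h3
  exact h3

/-- Open convex sets blocking all lines through `x` can be replaced by compact convex subsets. -/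
lemma exists_compact_blockers (hn : 1 ≤ n) (S : Fin n → Set (EuclideanSpace ℝ (Fin n)))
    (hconv : ∀ i, Convex ℝ (S i)) (hopen : ∀ i, IsOpen (S i)) (hne : ∀ i, (S i).Nonempty)
    (x : EuclideanSpace ℝ (Fin n)) (hx : x ∈ visualHull (⋃ i, S i)) :
    ∃ T : Fin n → Set (EuclideanSpace ℝ (Fin n)), (∀ i, T i ⊆ S i) ∧ (∀ i, IsCompact (T i)) ∧
      (∀ i, Convex ℝ (T i)) ∧ (∀ i, (T i).Nonempty) ∧
      ∀ v : EuclideanSpace ℝ (Fin n), v ≠ 0 → ∃ t : ℝ, ∃ i, x + t • v ∈ T i := by
  classical
  have : Nonempty (Fin n) := ⟨⟨0, hn⟩⟩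
  choose c hc using hne
  -- for each direction choose a small polytope in some `S i` crossed by the line
  have h1 : ∀ v : EuclideanSpace ℝ (Fin n), v ≠ 0 → ∃ t : ℝ, ∃ i, ∃ u :
      Finset (EuclideanSpace ℝ (Fin n)), x + t • v ∈ interior (convexHull ℝ (u : Set _)) ∧
      convexHull ℝ (u : Set (EuclideanSpace ℝ (Fin n))) ⊆ S i := by
    intro v hv
    obtain ⟨t, ht⟩ := hx v hv
    rw [Set.mem_iUnion] at ht
    obtain ⟨i, hi⟩ := ht
    obtain ⟨u, hu1, hu2⟩ := Convex.exists_subset_interior_convexHull_finset_of_isCompact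
      (convex_singleton (x + t • v)) isCompact_singleton
      (t := S i) (by rw [nhdsSet_singleton]; exact (hopen i).mem_nhds hi)
    exact ⟨t, i, u, hu1 rfl, hu2⟩
  choose! t i u hu hball using h1
  have hsph : IsCompact (Metric.sphere (0 : EuclideanSpace ℝ (Fin n)) 1) := isCompact_sphere 0 1
  have hnz : ∀ v ∈ Metric.sphere (0 : EuclideanSpace ℝ (Fin n)) 1, v ≠ 0 := by
    intro v hv h
    rw [h] at hv
    simp at hv
  obtain ⟨s, hs, hcover⟩ := hsph.elim_nhds_subcover
    (fun v => (fun w => x + t v • w) ⁻¹' (interior (convexHull ℝ (u v : Set _))))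
    (fun v hv => by
      apply IsOpen.mem_nhds
      · exact isOpen_interior.preimage (by fun_prop)
      · exact hu v (hnz v hv))
  let T : Fin n → Set (EuclideanSpace ℝ (Fin n)) := fun j =>
    convexHull ℝ ({c j} ∪ ⋃ v ∈ s.filter (fun v => i v = j), (u v : Set _))
  have hTS : ∀ j, T j ⊆ S j := by
    intro j
    apply convexHull_min _ (hconv j)
    rintro y (hy | hy)
    · rw [Set.mem_singleton_iff] at hy; rw [hy]; exact hc j
    · simp only [Set.mem_iUnion, Finset.mem_filter] at hy
      obtain ⟨v, ⟨hvs, hvj⟩, hy⟩ := hy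
      have := hball v (hnz v (hs v hvs)) (subset_convexHull ℝ _ hy)
      rwa [hvj] at this
  refine ⟨T, hTS, fun j => ?_, fun j => convex_convexHull ℝ _, fun j => ?_, fun v hv => ?_⟩
  · apply Set.Finite.isCompact_convexHull
    refine (Set.finite_singleton _).union ?_
    exact (Finset.finite_toSet _).biUnion (fun v _ => (u v).finite_toSet)
  · exact ⟨c j, subset_convexHull ℝ _ (Or.inl rfl)⟩
  · have hv' : (‖v‖⁻¹ • v) ∈ Metric.sphere (0 : EuclideanSpace ℝ (Fin n)) 1 := by
      simp [norm_smul, norm_ne_zero_iff.2 hv]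
    have := hcover hv'
    simp only [Set.mem_iUnion] at this
    obtain ⟨w, hws, hw⟩ := this
    refine ⟨t w * ‖v‖⁻¹, i w, ?_⟩
    have h2 : x + t w • (‖v‖⁻¹ • v) ∈ interior (convexHull ℝ (u w : Set _)) := hw
    rw [smul_smul] at h2
    refine convexHull_mono ?_ (interior_subset h2)
    intro y hy
    refine Or.inr ?_
    simp only [Set.mem_iUnion, Finset.mem_filter]
    exact ⟨w, ⟨hws, rfl⟩, hy⟩

/-- Every point of the hull lies in a preconnected subset of the hull that meets some body. -/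
lemma exists_connection (hn : 1 ≤ n) (S : Fin n → Set (EuclideanSpace ℝ (Fin n)))
    (hS : ∀ i, IsBody (S i)) (hco : (∀ i, IsClosed (S i)) ∨ (∀ i, IsOpen (S i)))
    (x : EuclideanSpace ℝ (Fin n)) (hx : x ∈ visualHull (⋃ i, S i)) :
    ∃ i, ∃ T : Set (EuclideanSpace ℝ (Fin n)), IsPreconnected T ∧ x ∈ T ∧ (T ∩ S i).Nonempty ∧
      T ⊆ visualHull (⋃ i, S i) := by
  have hSsub : ∀ i, S i ⊆ visualHull (⋃ i, S i) := fun i y hy v _ =>
    ⟨0, by simpa using Set.mem_iUnion.2 ⟨i, hy⟩⟩
  have hne : ∀ i, (S i).Nonempty := fun i => (hS i).2.2.mono interior_subset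
  by_cases hcl : ∃ i, x ∈ closure (S i)
  · obtain ⟨i, hi⟩ := hcl
    obtain ⟨y, hy⟩ := hne i
    refine ⟨i, insert x (S i), ?_, Set.mem_insert _ _, ⟨y, Set.mem_insert_of_mem _ hy, hy⟩, ?_⟩
    · exact (hS i).2.1.isPreconnected.subset_closure (Set.subset_insert _ _)
        (Set.insert_subset hi subset_closure)
    · exact Set.insert_subset hx (hSsub i)
  · push Not at hcl
    have hray : ∃ m : EuclideanSpace ℝ (Fin n), ∀ i, ∃ t : ℝ, 0 < t ∧ x + t • m ∈ S i := by
      rcases hco with hco | hco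
      · apply exists_common_ray' hn x S _ (fun i => (hS i).2.1) hne
          (fun i hi => hcl i (subset_closure hi))
        · intro v hv
          obtain ⟨t, ht⟩ := hx v hv
          exact ⟨t, by simpa using ht⟩
        · intro i
          exact Metric.isCompact_of_isClosed_isBounded (hco i) (hS i).1
      · obtain ⟨T, hTS, hTc, hTconv, hTne, hTline⟩ :=
          exists_compact_blockers hn S (fun i => (hS i).2.1) hco hne x hx
        obtain ⟨m, hm⟩ := exists_common_ray' hn x T hTc hTconv hTne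
          (fun i hi => hcl i (subset_closure (hTS i hi))) hTline
        refine ⟨m, fun i => ?_⟩
        obtain ⟨t, ht, htm⟩ := hm i
        exact ⟨t, ht, hTS i htm⟩
    obtain ⟨m, hm⟩ := hray
    obtain ⟨i, z, hz, hseg⟩ := segment_subset_hull hn S (fun i => (hS i).2.1) x m hx hm
    exact ⟨i, segment ℝ x z, (convex_segment x z).isPreconnected, left_mem_segment ℝ x z,
      ⟨z, right_mem_segment ℝ x z, hz⟩, hseg⟩

/-- Different bodies lie in different components (no closedness is needed here). -/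
lemma separation_clopen (S : Fin n → Set (EuclideanSpace ℝ (Fin n)))
    (hsep : ∀ i j, i ≠ j → StrictlySeparated (S i) (S j)) (i : Fin n) :
    ∃ U : Set (visualHull (⋃ i, S i)), IsClopen U ∧
      (∀ x : visualHull (⋃ i, S i), (x : EuclideanSpace ℝ (Fin n)) ∈ S i → x ∈ U) ∧
      (∀ j, j ≠ i → ∀ x : visualHull (⋃ i, S i),
        (x : EuclideanSpace ℝ (Fin n)) ∈ S j → x ∉ U) := by
  classical
  have h := fun j (hj : i ≠ j) => hsep i j hj
  choose! f c hf0 hfi hfj using h
  let U : Set (visualHull (⋃ i, S i)) := {x | ∀ j, i ≠ j → f j x < c j}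
  have hU : U = {x : visualHull (⋃ i, S i) | ∀ j, i ≠ j → f j x ≤ c j} := by
    ext x
    refine ⟨fun hx j hj => (hx j hj).le, fun hx => ?_⟩
    by_contra hcon
    simp only [U, Set.mem_ofPred_eq] at hcon hx
    push Not at hcon
    obtain ⟨j0, hj0, hj0'⟩ := hcon
    have heq : f j0 x = c j0 := le_antisymm (hx j0 hj0) hj0'
    obtain ⟨d, hd0, hd⟩ := exists_common_zero i f
    obtain ⟨t, ht⟩ := x.2 d hd0
    rw [Set.mem_iUnion] at ht
    obtain ⟨k, hk⟩ := ht
    by_cases hki : i = k
    · subst hki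
      have h1 := hfi j0 hj0 _ hk
      rw [map_add, map_smul, hd j0 (Ne.symm hj0), smul_zero, add_zero, heq] at h1
      exact lt_irrefl _ h1
    · have h1 := hfj k hki _ hk
      rw [map_add, map_smul, hd k (fun h => hki h.symm), smul_zero, add_zero] at h1
      exact absurd (hx k hki) (not_le.2 h1)
  refine ⟨U, ⟨?_, ?_⟩, ?_, ?_⟩
  · rw [hU]
    simp only [Set.ofPred_forall]
    refine isClosed_iInter fun j => isClosed_iInter fun _ => ?_
    exact isClosed_le (by fun_prop) continuous_const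
  · have : U = ⋂ j : Fin n, ⋂ _ : i ≠ j, {x : visualHull (⋃ i, S i) | f j x < c j} := by
      simp only [U, Set.ofPred_forall]
    rw [this]
    refine isOpen_iInter_of_finite fun j => isOpen_iInter_of_finite fun _ => ?_
    exact isOpen_lt (by fun_prop) continuous_const
  · intro x hx j hj
    exact hfi j hj _ hx
  · intro j hj x hx hxU
    exact absurd (hxU j (Ne.symm hj)) (not_lt.2 (hfj j (Ne.symm hj) _ hx).le)

/-- **Main theorem.** Let `n ≥ 1` and let `S 0, …, S (n-1)` be pairwise strictly separated bodies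
in `ℝ^n`, all closed or all open. Then the visual hull of their union has exactly `n` connected
components. -/
theorem result (n : ℕ) (hn : 1 ≤ n) (S : Fin n → Set (EuclideanSpace ℝ (Fin n)))
    (hS : ∀ i, IsBody (S i)) (hco : (∀ i, IsClosed (S i)) ∨ (∀ i, IsOpen (S i)))
    (hsep : ∀ i j, i ≠ j → StrictlySeparated (S i) (S j)) :
    Nat.card (ConnectedComponents (visualHull (⋃ i, S i))) = n := by
  classical
  have hSsub : ∀ i, S i ⊆ visualHull (⋃ i, S i) := fun i y hy v _ =>
    ⟨0, by simpa using Set.mem_iUnion.2 ⟨i, hy⟩⟩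
  have hne : ∀ i, (S i).Nonempty := fun i => (hS i).2.2.mono interior_subset
  choose p hp using hne
  let q : Fin n → visualHull (⋃ i, S i) := fun i => ⟨p i, hSsub i (hp i)⟩
  let φ : Fin n → ConnectedComponents (visualHull (⋃ i, S i)) := fun i => (q i : _)
  have hbij : Function.Bijective φ := by
    constructor
    · intro i j hij
      by_contra hne
      obtain ⟨U, hU, hin, hout⟩ := separation_clopen S hsep i
      have h1 : q j ∈ connectedComponent (q i) := by
        have : (q j : ConnectedComponents (visualHull (⋃ i, S i))) = q i := hij.symm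
        exact ConnectedComponents.coe_eq_coe'.1 this
      have h2 : q j ∈ U := hU.connectedComponent_subset (hin (q i) (hp i)) h1
      exact hout j (fun h => hne h.symm) (q j) (hp j) h2
    · intro y
      obtain ⟨x, rfl⟩ := ConnectedComponents.surjective_coe y
      obtain ⟨i, T, hT, hxT, ⟨z, hzT, hzS⟩, hsub⟩ := exists_connection hn S hS hco x.1 x.2
      refine ⟨i, ?_⟩
      change ((q i : visualHull (⋃ i, S i)) : ConnectedComponents (visualHull (⋃ i, S i))) = x
      rw [ConnectedComponents.coe_eq_coe']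
      have hTS : IsPreconnected (T ∪ S i) :=
        IsPreconnected.union z hzT hzS hT (hS i).2.1.isPreconnected
      have hsub' : T ∪ S i ⊆ visualHull (⋃ i, S i) := Set.union_subset hsub (hSsub i)
      have hpre : IsPreconnected ((↑) ⁻¹' (T ∪ S i) : Set (visualHull (⋃ i, S i))) := by
        rw [← Topology.IsInducing.subtypeVal.isPreconnected_image, Subtype.image_preimage_coe,
          Set.inter_eq_self_of_subset_right hsub']
        exact hTS
      exact hpre.subset_connectedComponent (Or.inl hxT) (Or.inr (hp i))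
  rw [Nat.card_eq_of_bijective φ hbij |>.symm, Nat.card_eq_fintype_card, Fintype.card_fin]

end Pool.Agent.Results.MP_1d6f1e_gt.ClosedOrOpen
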