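import Mathlib

/-!
Three strictly separated bodies in `ℝ^3` (bounded convex sets with nonempty interior, not all of
them closed) whose union has a visual hull with at least four connected components.
-/

namespace Pool.Agent.Results.MP_1d6f1e_gt.Disproof

open Set Topology Module

/-- The visual hull of `S`: the set of points `x` such that every line through `x` meets `S`. -/
def visualHull {n : ℕ} (S : Set (EuclideanSpace ℝ (Fin n))) :
    Set (EuclideanSpace ℝ (Fin n)) :=
  {x | ∀ v : EuclideanSpace ℝ (Fin n), v ≠ 0 → ∃ t : ℝ, x + t • v ∈ S}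

/-- A body: a bounded convex set with nonempty interior. -/
def IsBody {n : ℕ} (S : Set (EuclideanSpace ℝ (Fin n))) : Prop :=
  Bornology.IsBounded S ∧ Convex ℝ S ∧ (interior S).Nonempty

/-- `A` and `B` lie in the two different open half-spaces bounded by some affine hyperplane. -/
def StrictlySeparated {n : ℕ} (A B : Set (EuclideanSpace ℝ (Fin n))) : Prop :=
  ∃ (f : EuclideanSpace ℝ (Fin n) →L[ℝ] ℝ) (c : ℝ), f ≠ 0 ∧
    (∀ x ∈ A, f x < c) ∧ (∀ x ∈ B, c < f x)

/-- The space `ℝ^3`. -/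
abbrev E3 : Type := EuclideanSpace ℝ (Fin 3)

/-- First body: a closed tetrahedron. -/
def T0 : Set E3 :=
  {p | 0 ≤ p 1 ∧ p 2 ≤ p 1 ∧ 1 ≤ -p 0 + 2 * p 1 - p 2 ∧ -p 0 / 2 + 2 * p 1 - p 2 ≤ 1}

/-- Second body: a tetrahedron with part of one edge removed. -/
def T1 : Set E3 :=
  {p | 0 ≤ p 1 ∧ 0 ≤ p 2 ∧ 1 ≤ p 0 + (p 1 + p 2) / 4 ∧ p 0 / 2 + (p 1 + p 2) / 4 ≤ 1 ∧
    (p 0 = 0 → 2 * p 1 ≤ p 2)}

/-- Third body: a tetrahedron with part of one edge removed. -/
def T2 : Set E3 :=
  {p | 0 ≤ p 2 ∧ p 1 ≤ p 2 ∧ 1 ≤ -p 0 / 20 + (-p 1 + 2 * p 2) / 10 ∧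
    -p 0 / 30 + (-p 1 + 2 * p 2) / 10 ≤ 1 ∧ (p 0 = 0 → p 2 ≤ 2 * p 1)}

/-- The family of the three bodies. -/
def T : Fin 3 → Set E3 := ![T0, T1, T2]

lemma T0_u {p : E3} (hp : p ∈ T0) : p 0 ≤ 0 := by
  obtain ⟨h1, h2, h3, h4⟩ := hp; linarith

lemma T1_u {p : E3} (hp : p ∈ T1) : 0 ≤ p 0 := by
  obtain ⟨h1, h2, h3, h4, _⟩ := hp; linarith

lemma T2_u {p : E3} (hp : p ∈ T2) : p 0 ≤ 0 := by
  obtain ⟨h1, h2, h3, h4, _⟩ := hp; linarith

lemma convex_T0 : Convex ℝ T0 := by
  intro p hp q hq a b ha hb hab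
  obtain ⟨h1, h2, h3, h4⟩ := hp
  obtain ⟨k1, k2, k3, k4⟩ := hq
  simp only [T0, Set.mem_ofPred_eq, PiLp.add_apply, PiLp.smul_apply, smul_eq_mul]
  refine ⟨by nlinarith, by nlinarith, by nlinarith, by nlinarith⟩

lemma convex_T1 : Convex ℝ T1 := by
  rw [convex_iff_forall_pos]
  intro p hp q hq a b ha hb hab
  have hpu := T1_u hp
  have hqu := T1_u hq
  obtain ⟨h1, h2, h3, h4, h5⟩ := hp
  obtain ⟨k1, k2, k3, k4, k5⟩ := hq
  simp only [T1, Set.mem_ofPred_eq, PiLp.add_apply, PiLp.smul_apply, smul_eq_mul]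
  refine ⟨by nlinarith, by nlinarith, by nlinarith, by nlinarith, fun h => ?_⟩
  have e1 : 0 ≤ a * p 0 := mul_nonneg ha.le hpu
  have e2 : 0 ≤ b * q 0 := mul_nonneg hb.le hqu
  have e3 : a * p 0 = 0 := by linarith
  have e4 : b * q 0 = 0 := by linarith
  have e5 : p 0 = 0 := by
    rcases mul_eq_zero.1 e3 with h | h
    · exact absurd h ha.ne'
    · exact h
  have e6 : q 0 = 0 := by
    rcases mul_eq_zero.1 e4 with h | h
    · exact absurd h hb.ne'
    · exact h
  have := h5 e5
  have := k5 e6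
  nlinarith

lemma convex_T2 : Convex ℝ T2 := by
  rw [convex_iff_forall_pos]
  intro p hp q hq a b ha hb hab
  have hpu := T2_u hp
  have hqu := T2_u hq
  obtain ⟨h1, h2, h3, h4, h5⟩ := hp
  obtain ⟨k1, k2, k3, k4, k5⟩ := hq
  simp only [T2, Set.mem_ofPred_eq, PiLp.add_apply, PiLp.smul_apply, smul_eq_mul]
  refine ⟨by nlinarith, by nlinarith, by nlinarith, by nlinarith, fun h => ?_⟩
  have e1 : 0 ≤ a * (-p 0) := mul_nonneg ha.le (by linarith)
  have e2 : 0 ≤ b * (-q 0) := mul_nonneg hb.le (by linarith)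
  have e3 : a * p 0 = 0 := by linarith
  have e4 : b * q 0 = 0 := by linarith
  have e5 : p 0 = 0 := by
    rcases mul_eq_zero.1 e3 with h | h
    · exact absurd h ha.ne'
    · exact h
  have e6 : q 0 = 0 := by
    rcases mul_eq_zero.1 e4 with h | h
    · exact absurd h hb.ne'
    · exact h
  have := h5 e5
  have := k5 e6
  nlinarith

lemma bounded_of_coords (A : Set E3) (C : ℝ) (hC : 0 ≤ C)
    (h : ∀ p ∈ A, |p 0| ≤ C ∧ |p 1| ≤ C ∧ |p 2| ≤ C) : Bornology.IsBounded A := by
  rw [isBounded_iff_forall_norm_le]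
  refine ⟨2 * C, fun p hp => ?_⟩
  obtain ⟨h0, h1, h2⟩ := h p hp
  rw [EuclideanSpace.norm_eq, Fin.sum_univ_three]
  apply Real.sqrt_le_iff.2
  refine ⟨by linarith, ?_⟩
  simp only [Real.norm_eq_abs]
  have e0 : |p 0| ^ 2 ≤ C ^ 2 := pow_le_pow_left₀ (abs_nonneg _) h0 2
  have e1 : |p 1| ^ 2 ≤ C ^ 2 := pow_le_pow_left₀ (abs_nonneg _) h1 2
  have e2 : |p 2| ^ 2 ≤ C ^ 2 := pow_le_pow_left₀ (abs_nonneg _) h2 2
  nlinarith

lemma bounded_T0 : Bornology.IsBounded T0 := by
  apply bounded_of_coords _ 2 (by norm_num)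
  rintro p ⟨h1, h2, h3, h4⟩
  refine ⟨abs_le.2 ⟨by linarith, by linarith⟩, abs_le.2 ⟨by linarith, by linarith⟩,
    abs_le.2 ⟨by linarith, by linarith⟩⟩

lemma bounded_T1 : Bornology.IsBounded T1 := by
  apply bounded_of_coords _ 4 (by norm_num)
  rintro p ⟨h1, h2, h3, h4, _⟩
  refine ⟨abs_le.2 ⟨by linarith, by linarith⟩, abs_le.2 ⟨by linarith, by linarith⟩,
    abs_le.2 ⟨by linarith, by linarith⟩⟩

lemma bounded_T2 : Bornology.IsBounded T2 := by
  apply bounded_of_coords _ 30 (by norm_num)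
  rintro p ⟨h1, h2, h3, h4, _⟩
  refine ⟨abs_le.2 ⟨by linarith, by linarith⟩, abs_le.2 ⟨by linarith, by linarith⟩,
    abs_le.2 ⟨by linarith, by linarith⟩⟩

lemma continuous_coord (i : Fin 3) : Continuous fun p : E3 => p i := by fun_prop

lemma interior_T0 : (interior T0).Nonempty := by
  refine ⟨!₂[-1, 1/8, 0], ?_⟩
  rw [mem_interior]
  refine ⟨{p | 0 < p 1} ∩ ({p | p 2 < p 1} ∩ ({p | 1 < -p 0 + 2 * p 1 - p 2} ∩
    {p | -p 0 / 2 + 2 * p 1 - p 2 < 1})), ?_, ?_, ?_⟩
  · rintro p ⟨h1, h2, h3, h4⟩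
    exact ⟨h1.le, h2.le, h3.le, h4.le⟩
  · refine (isOpen_lt (by fun_prop) (by fun_prop)).inter ((isOpen_lt (by fun_prop)
      (by fun_prop)).inter ((isOpen_lt (by fun_prop) (by fun_prop)).inter
      (isOpen_lt (by fun_prop) (by fun_prop))))
  · simp only [Set.mem_inter_iff, Set.mem_ofPred_eq]
    refine ⟨?_, ?_, ?_, ?_⟩ <;> simp <;> norm_num

lemma interior_T1 : (interior T1).Nonempty := by
  refine ⟨!₂[1, 1/4, 1/4], ?_⟩
  rw [mem_interior]
  refine ⟨{p | 0 < p 1} ∩ ({p | 0 < p 2} ∩ ({p | 1 < p 0 + (p 1 + p 2) / 4} ∩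
    {p | p 0 / 2 + (p 1 + p 2) / 4 < 1})), ?_, ?_, ?_⟩
  · rintro p ⟨h1, h2, h3, h4⟩
    simp only [Set.mem_ofPred_eq] at h1 h2 h3 h4
    exact ⟨h1.le, h2.le, h3.le, h4.le, fun h => by linarith⟩
  · refine (isOpen_lt (by fun_prop) (by fun_prop)).inter ((isOpen_lt (by fun_prop)
      (by fun_prop)).inter ((isOpen_lt (by fun_prop) (by fun_prop)).inter
      (isOpen_lt (by fun_prop) (by fun_prop))))
  · simp only [Set.mem_inter_iff, Set.mem_ofPred_eq]
    refine ⟨?_, ?_, ?_, ?_⟩ <;> simp <;> norm_num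

lemma interior_T2 : (interior T2).Nonempty := by
  refine ⟨!₂[-21, 0, 1/2], ?_⟩
  rw [mem_interior]
  refine ⟨{p | 0 < p 2} ∩ ({p | p 1 < p 2} ∩ ({p | 1 < -p 0 / 20 + (-p 1 + 2 * p 2) / 10} ∩
    {p | -p 0 / 30 + (-p 1 + 2 * p 2) / 10 < 1})), ?_, ?_, ?_⟩
  · rintro p ⟨h1, h2, h3, h4⟩
    simp only [Set.mem_ofPred_eq] at h1 h2 h3 h4
    exact ⟨h1.le, h2.le, h3.le, h4.le, fun h => by linarith⟩
  · refine (isOpen_lt (by fun_prop) (by fun_prop)).inter ((isOpen_lt (by fun_prop)
      (by fun_prop)).inter ((isOpen_lt (by fun_prop) (by fun_prop)).inter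
      (isOpen_lt (by fun_prop) (by fun_prop))))
  · simp only [Set.mem_inter_iff, Set.mem_ofPred_eq]
    refine ⟨?_, ?_, ?_, ?_⟩ <;> simp <;> norm_num

lemma isBody_T (i : Fin 3) : IsBody (T i) := by
  fin_cases i
  · exact ⟨bounded_T0, convex_T0, interior_T0⟩
  · exact ⟨bounded_T1, convex_T1, interior_T1⟩
  · exact ⟨bounded_T2, convex_T2, interior_T2⟩

/-- The linear functional `a u + b y + c z`. -/
noncomputable def lin (a b c : ℝ) : E3 →L[ℝ] ℝ :=
  a • EuclideanSpace.proj (0 : Fin 3) + b • EuclideanSpace.proj (1 : Fin 3) +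
    c • EuclideanSpace.proj (2 : Fin 3)

lemma lin_apply (a b c : ℝ) (p : E3) : lin a b c p = a * p 0 + b * p 1 + c * p 2 := by
  simp [lin]

lemma lin_ne_zero {a b c : ℝ} (hb : b ≠ 0) : lin a b c ≠ 0 := by
  intro h
  have := congrArg (fun f => f (!₂[0, 1, 0] : E3)) h
  simp [lin] at this
  exact hb this

lemma sep_symm {A B : Set E3} (h : StrictlySeparated A B) : StrictlySeparated B A := by
  obtain ⟨f, c, hf, hA, hB⟩ := h
  refine ⟨-f, -c, neg_ne_zero.2 hf, fun x hx => ?_, fun x hx => ?_⟩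
  · simpa using hB x hx
  · simpa using hA x hx

lemma sep01 : StrictlySeparated T0 T1 := by
  refine ⟨lin 3 1 1, 5/2, lin_ne_zero one_ne_zero, ?_, ?_⟩
  · rintro p ⟨h1, h2, h3, h4⟩
    rw [lin_apply]; linarith
  · rintro p ⟨h1, h2, h3, h4, _⟩
    rw [lin_apply]; linarith

lemma sep02 : StrictlySeparated T0 T2 := by
  refine ⟨lin (-1) (-1) 2, 5, lin_ne_zero (by norm_num), ?_, ?_⟩
  · rintro p ⟨h1, h2, h3, h4⟩
    rw [lin_apply]; linarith
  · rintro p ⟨h1, h2, h3, h4, _⟩
    rw [lin_apply]; linarith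

lemma sep12 : StrictlySeparated T1 T2 := by
  refine ⟨lin (-1) (-1) 2, 9, lin_ne_zero (by norm_num), ?_, ?_⟩
  · rintro p ⟨h1, h2, h3, h4, _⟩
    rw [lin_apply]; linarith
  · rintro p ⟨h1, h2, h3, h4, _⟩
    rw [lin_apply]; linarith

lemma sep_T (i j : Fin 3) (hij : i ≠ j) : StrictlySeparated (T i) (T j) := by
  fin_cases i <;> fin_cases j
  · exact absurd rfl hij
  · exact sep01
  · exact sep02
  · exact sep_symm sep01
  · exact absurd rfl hij
  · exact sep12
  · exact sep_symm sep02
  · exact sep_symm sep12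
  · exact absurd rfl hij

/-- Half of the directions: the origin is in the hull. -/
lemma zero_aux (v : E3) (hv : v ≠ 0) (h : 0 < v 0 ∨ (v 0 = 0 ∧ 0 ≤ v 1)) :
    ∃ t : ℝ, ∃ i, t • v ∈ T i := by
  rcases h with h | ⟨h, hb⟩
  · by_cases hbc : 0 ≤ v 1 ∧ 0 ≤ v 2
    · obtain ⟨hb, hc⟩ := hbc
      have hpos : 0 < v 0 / 2 + (v 1 + v 2) / 4 := by linarith
      set D := v 0 / 2 + (v 1 + v 2) / 4 with hD
      have ht : 0 < D⁻¹ := inv_pos.2 hpos
      have hDt : D⁻¹ * D = 1 := inv_mul_cancel₀ hpos.ne'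
      refine ⟨D⁻¹, 1, ?_⟩
      show _ ∈ T1
      simp only [T1, Set.mem_ofPred_eq, PiLp.smul_apply, smul_eq_mul]
      refine ⟨mul_nonneg ht.le hb, mul_nonneg ht.le hc, ?_, ?_, fun h0 => ?_⟩
      · have : 0 < D⁻¹ * v 0 := mul_pos ht h
        nlinarith
      · nlinarith
      · exact absurd h0 (mul_pos ht h).ne'
    · by_cases hle : v 1 ≤ v 2
      · have hb : v 1 < 0 := by
          by_contra hb
          exact hbc ⟨by linarith, by linarith⟩
        have hpos : 0 < v 0 / 2 - 2 * v 1 + v 2 := by linarith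
        set D := v 0 / 2 - 2 * v 1 + v 2 with hD
        have ht : 0 < D⁻¹ := inv_pos.2 hpos
        have hDt : D⁻¹ * D = 1 := inv_mul_cancel₀ hpos.ne'
        refine ⟨-D⁻¹, 0, ?_⟩
        show _ ∈ T0
        simp only [T0, Set.mem_ofPred_eq, PiLp.smul_apply, smul_eq_mul]
        have h0 : 0 < D⁻¹ * v 0 := mul_pos ht h
        refine ⟨by nlinarith, by nlinarith, by nlinarith, by nlinarith⟩
      · have hle' : v 2 < v 1 := not_le.1 hle
        have hc : v 2 < 0 := by
          by_contra hc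
          exact hbc ⟨by linarith, by linarith⟩
        have hpos : 0 < v 0 / 30 + (v 1 - 2 * v 2) / 10 := by linarith
        set D := v 0 / 30 + (v 1 - 2 * v 2) / 10 with hD
        have ht : 0 < D⁻¹ := inv_pos.2 hpos
        have hDt : D⁻¹ * D = 1 := inv_mul_cancel₀ hpos.ne'
        refine ⟨-D⁻¹, 2, ?_⟩
        show _ ∈ T2
        simp only [T2, Set.mem_ofPred_eq, PiLp.smul_apply, smul_eq_mul]
        have h0 : 0 < D⁻¹ * v 0 := mul_pos ht h
        refine ⟨by nlinarith, by nlinarith, by nlinarith, by nlinarith, fun h1 => ?_⟩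
        nlinarith
  · have hne : v 1 ≠ 0 ∨ v 2 ≠ 0 := by
      by_contra hcon
      push Not at hcon
      apply hv
      ext i
      fin_cases i
      · exact h
      · exact hcon.1
      · exact hcon.2
    by_cases h1 : v 2 ≤ v 1
    · have hpos : 0 < 2 * v 1 - v 2 := by
        rcases hne with h2 | h2
        · have : 0 < v 1 := lt_of_le_of_ne hb (Ne.symm h2)
          linarith
        · rcases lt_or_gt_of_ne h2 with h3 | h3
          · linarith
          · linarith
      set D := 2 * v 1 - v 2 with hD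
      have ht : 0 < D⁻¹ := inv_pos.2 hpos
      have hDt : D⁻¹ * D = 1 := inv_mul_cancel₀ hpos.ne'
      refine ⟨D⁻¹, 0, ?_⟩
      show _ ∈ T0
      simp only [T0, Set.mem_ofPred_eq, PiLp.smul_apply, smul_eq_mul, h]
      refine ⟨by nlinarith, by nlinarith, by nlinarith, by nlinarith⟩
    · have h1' : v 1 < v 2 := not_le.1 h1
      by_cases h2 : v 2 ≤ 2 * v 1
      · have hpos : 0 < (-v 1 + 2 * v 2) / 10 := by linarith
        set D := (-v 1 + 2 * v 2) / 10 with hD
        have ht : 0 < D⁻¹ := inv_pos.2 hpos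
        have hDt : D⁻¹ * D = 1 := inv_mul_cancel₀ hpos.ne'
        refine ⟨D⁻¹, 2, ?_⟩
        show _ ∈ T2
        simp only [T2, Set.mem_ofPred_eq, PiLp.smul_apply, smul_eq_mul, h]
        refine ⟨by nlinarith, by nlinarith, by nlinarith, by nlinarith, fun _ => by nlinarith⟩
      · have h2' : 2 * v 1 < v 2 := not_le.1 h2
        have hpos : 0 < (v 1 + v 2) / 4 := by linarith
        set D := (v 1 + v 2) / 4 with hD
        have ht : 0 < D⁻¹ := inv_pos.2 hpos
        have hDt : D⁻¹ * D = 1 := inv_mul_cancel₀ hpos.ne'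
        refine ⟨D⁻¹, 1, ?_⟩
        show _ ∈ T1
        simp only [T1, Set.mem_ofPred_eq, PiLp.smul_apply, smul_eq_mul, h]
        refine ⟨by nlinarith, by nlinarith, by nlinarith, by nlinarith, fun _ => by nlinarith⟩

/-- The origin belongs to the visual hull. -/
lemma zero_mem : (0 : E3) ∈ visualHull (⋃ i, T i) := by
  intro v hv
  simp only [zero_add]
  by_cases h : 0 < v 0 ∨ (v 0 = 0 ∧ 0 ≤ v 1)
  · obtain ⟨t, i, hti⟩ := zero_aux v hv h
    exact ⟨t, Set.mem_iUnion.2 ⟨i, hti⟩⟩
  · have h' : 0 < (-v) 0 ∨ ((-v) 0 = 0 ∧ 0 ≤ (-v) 1) := by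
      simp only [PiLp.neg_apply]
      push Not at h
      obtain ⟨h1, h2⟩ := h
      rcases lt_or_eq_of_le h1 with h3 | h3
      · left; linarith
      · right; exact ⟨by linarith, by linarith [h2 h3]⟩
    obtain ⟨t, i, hti⟩ := zero_aux (-v) (neg_ne_zero.2 hv) h'
    exact ⟨-t, Set.mem_iUnion.2 ⟨i, by simpa using hti⟩⟩

set_option maxHeartbeats 1000000 in
/-- Every other point near the origin lies on a line missing all three bodies. -/
lemma near_zero (p : E3) (hp : p ≠ 0) (h0 : |p 0| < 1/100) (h1 : |p 1| < 1/100)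
    (h2 : |p 2| < 1/100) : p ∉ visualHull (⋃ i, T i) := by
  intro hmem
  rw [abs_lt] at h0 h1 h2
  obtain ⟨h0l, h0r⟩ := h0
  obtain ⟨h1l, h1r⟩ := h1
  obtain ⟨h2l, h2r⟩ := h2
  have key : ∀ v : E3, v ≠ 0 → (∀ t : ℝ, p + t • v ∉ T0 ∧ p + t • v ∉ T1 ∧ p + t • v ∉ T2) →
      False := by
    intro v hv h
    obtain ⟨t, ht⟩ := hmem v hv
    rw [Set.mem_iUnion] at ht
    obtain ⟨i, hi⟩ := ht
    obtain ⟨a, b, c⟩ := h t
    fin_cases i
    · exact a hi
    · exact b hi
    · exact c hi
  rcases lt_trichotomy (p 0) 0 with hu | hu | hu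
  · -- `u < 0`
    apply key !₂[-p 0 / 2, 1, 2]
    · intro h
      have := congrArg (fun q : E3 => q 1) h
      simp at this
    · intro t
      refine ⟨fun h => ?_, fun h => ?_, fun h => ?_⟩
      · have hu' := T0_u h
        obtain ⟨a1, a2, a3, a4⟩ := h
        simp at a1 a2 a3 a4 hu'
        have b1 : -1/100 < t := by linarith
        have b2 : t < 2/100 := by linarith
        nlinarith
      · have hu' := T1_u h
        obtain ⟨a1, a2, a3, a4, a5⟩ := h
        simp at a1 a2 a3 a4 a5 hu'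
        have b1 : 2 ≤ t := by nlinarith
        nlinarith
      · have hu' := T2_u h
        obtain ⟨a1, a2, a3, a4, a5⟩ := h
        simp at a1 a2 a3 a4 a5 hu'
        have b1 : t ≤ 2 := by nlinarith
        have b2 : -1/100 < t := by linarith
        nlinarith
  · -- `u = 0`
    have hyz : p 1 ≠ 0 ∨ p 2 ≠ 0 := by
      by_contra hcon
      push Not at hcon
      apply hp
      ext i
      fin_cases i
      · exact hu
      · exact hcon.1
      · exact hcon.2
    by_cases hy : p 1 < 0
    · -- vertical line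
      apply key !₂[0, 0, 1]
      · intro h
        have := congrArg (fun q : E3 => q 2) h
        simp at this
      · intro t
        refine ⟨fun h => ?_, fun h => ?_, fun h => ?_⟩
        · obtain ⟨a1, a2, a3, a4⟩ := h
          simp at a1 a2 a3 a4
          linarith
        · obtain ⟨a1, a2, a3, a4, a5⟩ := h
          simp at a1 a2 a3 a4 a5
          linarith
        · obtain ⟨a1, a2, a3, a4, a5⟩ := h
          simp at a1 a2 a3 a4 a5
          have := a5 hu
          linarith
    · have hy' : 0 ≤ p 1 := not_lt.1 hy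
      by_cases hz : p 2 < 2 * p 1
      · -- line through `(0, 2, 4)`
        apply key !₂[0, 2 - p 1, 4 - p 2]
        · intro h
          have := congrArg (fun q : E3 => q 1) h
          simp at this
          linarith
        · intro t
          refine ⟨fun h => ?_, fun h => ?_, fun h => ?_⟩
          · obtain ⟨a1, a2, a3, a4⟩ := h
            simp [hu] at a1 a2 a3 a4
            have b1 : (2 * p 1 - p 2) * (1 - t) = 1 := by linarith
            have b2 : t ≤ 0 := by nlinarith
            have b3 : 1 - t ≤ 2 := by nlinarith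
            nlinarith
          · obtain ⟨a1, a2, a3, a4, a5⟩ := h
            simp [hu] at a1 a2 a3 a4 a5
            have b1 : (2 * p 1 - p 2) * (1 - t) ≤ 0 := by linarith
            have b2 : 1 ≤ t := by nlinarith
            nlinarith
          · obtain ⟨a1, a2, a3, a4, a5⟩ := h
            simp [hu] at a1 a2 a3 a4 a5
            have b1 : 0 ≤ (2 * p 1 - p 2) * (1 - t) := by linarith
            have b2 : t ≤ 1 := by nlinarith
            nlinarith
      · -- line through `(0, 5, 5)`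
        have hz' : 2 * p 1 ≤ p 2 := not_lt.1 hz
        have hw : 0 < p 2 - p 1 := by
          rcases lt_or_eq_of_le hy' with h | h
          · linarith
          · rcases hyz with h' | h'
            · exact absurd h.symm h'
            · rcases lt_or_gt_of_ne h' with h'' | h''
              · linarith
              · linarith
        apply key !₂[0, 5 - p 1, 5 - p 2]
        · intro h
          have := congrArg (fun q : E3 => q 1) h
          simp at this
          linarith
        · intro t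
          refine ⟨fun h => ?_, fun h => ?_, fun h => ?_⟩
          · obtain ⟨a1, a2, a3, a4⟩ := h
            simp [hu] at a1 a2 a3 a4
            have b1 : (p 2 - p 1) * (1 - t) ≤ 0 := by linarith
            have b2 : 1 ≤ t := by nlinarith
            nlinarith
          · obtain ⟨a1, a2, a3, a4, a5⟩ := h
            simp [hu] at a1 a2 a3 a4 a5
            have b0 : 0 ≤ t := by
              by_contra hneg
              have hneg' : t < 0 := not_le.1 hneg
              have := mul_pos_of_neg_of_neg hneg' (show -(5 - p 1) < 0 by linarith)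
              have := mul_pos_of_neg_of_neg hneg' (show -(5 - p 2) < 0 by linarith)
              linarith
            have b1 : 0 ≤ (p 2 - p 1) * t := mul_nonneg hw.le b0
            linarith
          · obtain ⟨a1, a2, a3, a4, a5⟩ := h
            simp [hu] at a1 a2 a3 a4 a5
            have b1 : 0 ≤ (p 2 - p 1) * (1 - t) := by linarith
            have b2 : t ≤ 1 := by
              by_contra hgt
              have := mul_pos hw (show 0 < t - 1 by linarith)
              linarith
            have b3 : 0 ≤ t := by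
              by_contra hneg
              have hneg' : t < 0 := not_le.1 hneg
              have := mul_pos_of_neg_of_neg hneg' (show -(5 - p 1) < 0 by linarith)
              have := mul_pos_of_neg_of_neg hneg' (show -(5 - p 2) < 0 by linarith)
              linarith
            have b4 : 0 ≤ (p 2 - p 1) * t := mul_nonneg hw.le b3
            have b5 : t * (5 - p 1) ≤ 1 * (5 - p 1) :=
              mul_le_mul_of_nonneg_right b2 (by linarith)
            linarith
  · -- `u > 0`
    apply key !₂[-(2 * p 0 / 3), 1, 1/2]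
    · intro h
      have := congrArg (fun q : E3 => q 1) h
      simp at this
    · intro t
      refine ⟨fun h => ?_, fun h => ?_, fun h => ?_⟩
      · have hu' := T0_u h
        obtain ⟨a1, a2, a3, a4⟩ := h
        simp at a1 a2 a3 a4 hu'
        have b1 : 3/2 ≤ t := by nlinarith
        linarith
      · have hu' := T1_u h
        obtain ⟨a1, a2, a3, a4, a5⟩ := h
        simp at a1 a2 a3 a4 a5 hu'
        have b1 : t ≤ 3/2 := by nlinarith
        have b2 : -1/100 < t := by linarith
        nlinarith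
      · have hu' := T2_u h
        obtain ⟨a1, a2, a3, a4, a5⟩ := h
        simp at a1 a2 a3 a4 a5 hu'
        have b1 : 3/2 ≤ t := by nlinarith
        linarith

/-- `n - 1` functionals on an `n`-dimensional space have a common nonzero zero. -/
lemma exists_common_zero {n : ℕ} (i0 : Fin n)
    (f : Fin n → (EuclideanSpace ℝ (Fin n) →L[ℝ] ℝ)) :
    ∃ d : EuclideanSpace ℝ (Fin n), d ≠ 0 ∧ ∀ j, j ≠ i0 → f j d = 0 := by
  classical
  let L : EuclideanSpace ℝ (Fin n) →ₗ[ℝ] ({j : Fin n // j ≠ i0} → ℝ) :=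
    LinearMap.pi fun j => (f j.1 : EuclideanSpace ℝ (Fin n) →ₗ[ℝ] ℝ)
  have hlt : finrank ℝ ({j : Fin n // j ≠ i0} → ℝ) <
      finrank ℝ (EuclideanSpace ℝ (Fin n)) := by
    rw [Module.finrank_fintype_fun_eq_card, finrank_euclideanSpace, Fintype.card_fin,
      Fintype.card_subtype_compl, Fintype.card_fin]
    have : Fintype.card {x : Fin n // x = i0} = 1 := Fintype.card_subtype_eq i0
    rw [this]
    have := i0.pos
    omega
  have hker : LinearMap.ker L ≠ ⊥ := LinearMap.ker_ne_bot_of_finrank_lt hlt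
  obtain ⟨d, hd, hd0⟩ := (Submodule.ne_bot_iff _).1 hker
  refine ⟨d, hd0, fun j hj => ?_⟩
  have := congrFun (LinearMap.mem_ker.1 hd) ⟨j, hj⟩
  simpa [L] using this

/-- Different bodies lie in different components (no closedness is needed here). -/
lemma separation_clopen {n : ℕ} (S : Fin n → Set (EuclideanSpace ℝ (Fin n)))
    (hsep : ∀ i j, i ≠ j → StrictlySeparated (S i) (S j)) (i : Fin n) :
    ∃ U : Set (visualHull (⋃ i, S i)), IsClopen U ∧
      (∀ x : visualHull (⋃ i, S i), (x : EuclideanSpace ℝ (Fin n)) ∈ S i → x ∈ U) ∧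
      (∀ j, j ≠ i → ∀ x : visualHull (⋃ i, S i),
        (x : EuclideanSpace ℝ (Fin n)) ∈ S j → x ∉ U) := by
  classical
  have h := fun j (hj : i ≠ j) => hsep i j hj
  choose! f c hf0 hfi hfj using h
  let U : Set (visualHull (⋃ i, S i)) := {x | ∀ j, i ≠ j → f j x < c j}
  have hU : U = {x : visualHull (⋃ i, S i) | ∀ j, i ≠ j → f j x ≤ c j} := by
    ext x
    refine ⟨fun hx j hj => (hx j hj).le, fun hx => ?_⟩
    by_contra hcon
    simp only [U, Set.mem_ofPred_eq] at hcon hx
    push Not at hcon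
    obtain ⟨j0, hj0, hj0'⟩ := hcon
    have heq : f j0 x = c j0 := le_antisymm (hx j0 hj0) hj0'
    obtain ⟨d, hd0, hd⟩ := exists_common_zero i f
    obtain ⟨t, ht⟩ := x.2 d hd0
    rw [Set.mem_iUnion] at ht
    obtain ⟨k, hk⟩ := ht
    by_cases hki : i = k
    · subst hki
      have h1 := hfi j0 hj0 _ hk
      rw [map_add, map_smul, hd j0 (Ne.symm hj0), smul_zero, add_zero, heq] at h1
      exact lt_irrefl _ h1
    · have h1 := hfj k hki _ hk
      rw [map_add, map_smul, hd k (fun h => hki h.symm), smul_zero, add_zero] at h1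
      exact absurd (hx k hki) (not_le.2 h1)
  refine ⟨U, ⟨?_, ?_⟩, ?_, ?_⟩
  · rw [hU]
    simp only [Set.ofPred_forall]
    refine isClosed_iInter fun j => isClosed_iInter fun _ => ?_
    exact isClosed_le (by fun_prop) continuous_const
  · have : U = ⋂ j : Fin n, ⋂ _ : i ≠ j, {x : visualHull (⋃ i, S i) | f j x < c j} := by
      simp only [U, Set.ofPred_forall]
    rw [this]
    refine isOpen_iInter_of_finite fun j => isOpen_iInter_of_finite fun _ => ?_
    exact isOpen_lt (by fun_prop) continuous_const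
  · intro x hx j hj
    exact hfi j hj _ hx
  · intro j hj x hx hxU
    exact absurd (hxU j (Ne.symm hj)) (not_lt.2 (hfj j (Ne.symm hj) _ hx).le)

/-- The origin is an isolated point of the hull. -/
lemma zero_clopen : IsClopen ({⟨0, zero_mem⟩} : Set (visualHull (⋃ i, T i))) := by
  refine ⟨isClosed_singleton, ?_⟩
  have : ({⟨0, zero_mem⟩} : Set (visualHull (⋃ i, T i))) =
      {x : visualHull (⋃ i, T i) | |(x : E3) 0| < 1/100} ∩
      ({x : visualHull (⋃ i, T i) | |(x : E3) 1| < 1/100} ∩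
        {x : visualHull (⋃ i, T i) | |(x : E3) 2| < 1/100}) := by
    ext x
    simp only [Set.mem_singleton_iff, Set.mem_inter_iff, Set.mem_ofPred_eq]
    constructor
    · intro h
      subst h
      simp
    · rintro ⟨h0, h1, h2⟩
      by_contra hne
      exact near_zero x.1 (fun h => hne (Subtype.ext h)) h0 h1 h2 x.2
  rw [this]
  exact (isOpen_lt (by fun_prop) (by fun_prop)).inter
    ((isOpen_lt (by fun_prop) (by fun_prop)).inter (isOpen_lt (by fun_prop) (by fun_prop)))

lemma zero_notMem_T (i : Fin 3) : (0 : E3) ∉ T i := by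
  intro h
  fin_cases i
  · obtain ⟨a1, a2, a3, a4⟩ := (h : (0 : E3) ∈ T0)
    simp at a3
    linarith
  · obtain ⟨a1, a2, a3, a4, a5⟩ := (h : (0 : E3) ∈ T1)
    simp at a3
    linarith
  · obtain ⟨a1, a2, a3, a4, a5⟩ := (h : (0 : E3) ∈ T2)
    simp at a3
    linarith

/-- **Main theorem.** There are three pairwise strictly separated bodies in `ℝ^3` such that the
visual hull of their union has at least four connected components. -/
theorem result : ∃ S : Fin 3 → Set (EuclideanSpace ℝ (Fin 3)),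
    (∀ i, IsBody (S i)) ∧ (∀ i j, i ≠ j → StrictlySeparated (S i) (S j)) ∧
    4 ≤ ENat.card (ConnectedComponents (visualHull (⋃ i, S i))) := by
  classical
  refine ⟨T, isBody_T, sep_T, ?_⟩
  have hSsub : ∀ i, T i ⊆ visualHull (⋃ i, T i) := fun i y hy v _ =>
    ⟨0, by simpa using Set.mem_iUnion.2 ⟨i, hy⟩⟩
  have hne : ∀ i, (T i).Nonempty := fun i => (isBody_T i).2.2.mono interior_subset
  choose p hp using hne
  let q : Fin 3 → visualHull (⋃ i, T i) := fun i => ⟨p i, hSsub i (hp i)⟩
  let φ : Option (Fin 3) → ConnectedComponents (visualHull (⋃ i, T i)) := fun o =>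
    match o with
    | none => ((⟨0, zero_mem⟩ : visualHull (⋃ i, T i)) : ConnectedComponents _)
    | some i => (q i : ConnectedComponents _)
  have h0 : ∀ i, φ none ≠ φ (some i) := by
    intro i hi
    have h1 : (q i : ConnectedComponents (visualHull (⋃ i, T i))) =
        (⟨0, zero_mem⟩ : visualHull (⋃ i, T i)) := hi.symm
    have h2 := ConnectedComponents.coe_eq_coe'.1 h1
    have h3 := zero_clopen.connectedComponent_subset (Set.mem_singleton _) h2
    have h4 : p i = 0 := congrArg Subtype.val (Set.mem_singleton_iff.1 h3)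
    exact zero_notMem_T i (h4 ▸ hp i)
  have hinj : Function.Injective φ := by
    intro a b hab
    match a, b, hab with
    | none, none, _ => rfl
    | none, some i, h => exact absurd h (h0 i)
    | some i, none, h => exact absurd h.symm (h0 i)
    | some i, some j, h =>
      by_contra hne
      have hij : i ≠ j := fun h => hne (by rw [h])
      obtain ⟨U, hU, hin, hout⟩ := separation_clopen T sep_T i
      have h1 : (q j : ConnectedComponents (visualHull (⋃ i, T i))) = q i := h.symm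
      have h2 : q j ∈ U :=
        hU.connectedComponent_subset (hin (q i) (hp i)) (ConnectedComponents.coe_eq_coe'.1 h1)
      exact hout j (fun h => hij h.symm) (q j) (hp j) h2
  have h4 : ENat.card (Option (Fin 3)) = 4 := by
    rw [ENat.card_eq_coe_fintype_card]; rfl
  rw [← h4]
  exact ENat.card_le_card_of_injective hinj

end Pool.Agent.Results.MP_1d6f1e_gt.Disproof
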